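import Pool.Agent.Helper26.LooseHC.Main

set_option autoImplicit false

/-!
# Colour-biased loose Hamilton cycles in 3-graphs under vertex degree

For every `α > 0` there are `δ > 0` and `n₀` such that every red/blue coloured 3-graph `H` on an
even number `n ≥ n₀` of vertices with minimum vertex degree at least `(7/16 + α) * (n choose 2)`
has a loose Hamilton cycle with at least `(1/4 + δ) n` edges of one colour.
-/

namespace Pool.Agent.Results.MP_8a4838_co.ColourBiasedLooseCycle

open Finset Pool.Agent.LooseHC

/-- For a cyclic ordering `v` of the vertices (indices modulo `n`), the set of all triples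
`{v_i, v_{i+1}, v_{i+2}}` with `i` odd. -/
def looseEdges {n : ℕ} (v : ZMod n → Fin n) : Finset (Finset (Fin n)) :=
  ((Finset.range n).filter (fun i : ℕ => Odd i)).image
    (fun i : ℕ => {v (i : ZMod n), v ((i : ZMod n) + 1), v ((i : ZMod n) + 2)})

/-- `v` is a loose Hamilton cycle of the 3-graph with edge set `E`: `v` is a cyclic ordering of all
vertices, and `{v_i, v_{i+1}, v_{i+2}}` is an edge for every odd `i`. -/
def IsLooseHamiltonCycle {n : ℕ} (E : Finset (Finset (Fin n))) (v : ZMod n → Fin n) : Prop :=
  Function.Bijective v ∧ looseEdges v ⊆ E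

lemma cnt_index {V : Type} {E : V → V → V → Prop} (P : V → V → V → Prop) {a b : V} {l : List V}
    (h : LPath E a l b) (d : V) :
    cnt P a l = ∑ j ∈ Finset.range (l.length / 2),
      (open Classical in if P ((a :: l).getD (2 * j) d) ((a :: l).getD (2 * j + 1) d)
        ((a :: l).getD (2 * j + 2) d) then 1 else 0) := by
  classical
  induction h with
  | nil a => simp [cnt]
  | @cons a x y b l h hp ih =>
    have h1 : (x :: y :: l).length / 2 = l.length / 2 + 1 := by
      simp only [List.length_cons]; omega
    rw [h1, Finset.sum_range_succ']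
    simp only [cnt]
    rw [ih]
    have h2 : ∀ j, (a :: x :: y :: l).getD (2 * (j + 1)) d = (y :: l).getD (2 * j) d := by
      intro j
      have : 2 * (j + 1) = 2 * j + 1 + 1 := by ring
      rw [this, List.getD_cons_succ, List.getD_cons_succ]
    have h3 : ∀ j, (a :: x :: y :: l).getD (2 * (j + 1) + 1) d = (y :: l).getD (2 * j + 1) d := by
      intro j
      have : 2 * (j + 1) + 1 = (2 * j + 1) + 1 + 1 := by ring
      rw [this, List.getD_cons_succ, List.getD_cons_succ]
    have h4 : ∀ j, (a :: x :: y :: l).getD (2 * (j + 1) + 2) d = (y :: l).getD (2 * j + 2) d := by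
      intro j
      have : 2 * (j + 1) + 2 = (2 * j + 2) + 1 + 1 := by ring
      rw [this, List.getD_cons_succ, List.getD_cons_succ]
    simp only [h2, h3, h4]
    have h5 : (a :: x :: y :: l).getD (2 * 0) d = a := rfl
    have h6 : (a :: x :: y :: l).getD (2 * 0 + 1) d = x := rfl
    have h7 : (a :: x :: y :: l).getD (2 * 0 + 2) d = y := rfl
    rw [h5, h6, h7]
    ring

lemma edge_index {V : Type} {E : V → V → V → Prop} {a b : V} {l : List V}
    (h : LPath E a l b) (d : V) :
    ∀ j, 2 * j + 2 ≤ l.length → E ((a :: l).getD (2 * j) d) ((a :: l).getD (2 * j + 1) d)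
        ((a :: l).getD (2 * j + 2) d) := by
  induction h with
  | nil a => intro j hj; simp at hj
  | @cons a x y b l h hp ih =>
    intro j hj
    cases j with
    | zero => exact h
    | succ j =>
      have := ih j (by simp only [List.length_cons] at hj; omega)
      have e1 : 2 * (j + 1) = 2 * j + 1 + 1 := by ring
      have e2 : 2 * (j + 1) + 1 = (2 * j + 1) + 1 + 1 := by ring
      have e3 : 2 * (j + 1) + 2 = (2 * j + 2) + 1 + 1 := by ring
      rw [e3, e2, e1]
      simp only [List.getD_cons_succ]
      simpa using this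

lemma last_index {V : Type} {E : V → V → V → Prop} {a b : V} {l : List V}
    (h : LPath E a l b) (d : V) : (a :: l).getD l.length d = b := by
  induction h with
  | nil a => rfl
  | @cons a x y b l h hp ih =>
    simp only [List.length_cons, List.getD_cons_succ]
    exact ih

/-- Ordered link pairs versus degree. -/
lemma link_ge {n : ℕ} (E : Finset (Finset (Fin n))) (hE : ∀ e ∈ E, e.card = 3) (x : Fin n)
    (R : Fin n → Fin n → Fin n → Prop) (hR : ∀ a b c, ({a, b, c} : Finset (Fin n)) ∈ E → R a b c) :
    2 * (E.filter (fun e => x ∈ e)).card ≤ (link R x).card := by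
  classical
  set P : Finset (Fin n × Fin n) :=
    univ.filter (fun p : Fin n × Fin n => ({x, p.1, p.2} : Finset (Fin n)) ∈ E) with hP
  have h1 : P ⊆ link R x := by
    intro p hp
    rw [hP, Finset.mem_filter] at hp
    rw [mem_link]
    exact hR _ _ _ hp.2
  refine le_trans ?_ (Finset.card_le_card h1)
  have h2 : P.card = ∑ e ∈ E.filter (fun e => x ∈ e),
      (P.filter (fun p => ({x, p.1, p.2} : Finset (Fin n)) = e)).card := by
    apply Finset.card_eq_sum_card_fiberwise
    intro p hp
    rw [Finset.mem_coe, hP, Finset.mem_filter] at hp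
    rw [Finset.mem_coe, Finset.mem_filter]
    exact ⟨hp.2, by simp⟩
  rw [h2, mul_comm, ← smul_eq_mul, ← Finset.sum_const]
  apply Finset.sum_le_sum
  intro e he
  rw [Finset.mem_filter] at he
  have h3 : (e.erase x).card = 2 := by
    rw [Finset.card_erase_of_mem he.2, hE e he.1]
  obtain ⟨a, b, hab, h4⟩ := Finset.card_eq_two.mp h3
  have h5 : e = {x, a, b} := by
    rw [← Finset.insert_erase he.2, h4]
  have h6 : ({(a, b), (b, a)} : Finset (Fin n × Fin n)) ⊆
      P.filter (fun p => ({x, p.1, p.2} : Finset (Fin n)) = e) := by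
    intro p hp
    rw [Finset.mem_insert, Finset.mem_singleton] at hp
    rw [Finset.mem_filter, hP, Finset.mem_filter]
    rcases hp with rfl | rfl
    · refine ⟨⟨Finset.mem_univ _, ?_⟩, h5.symm⟩
      simp only
      rw [← h5]; exact he.1
    · have h7 : ({x, b, a} : Finset (Fin n)) = e := by
        rw [h5, Finset.pair_comm b a]
      refine ⟨⟨Finset.mem_univ _, ?_⟩, h7⟩
      simp only
      rw [h7]; exact he.1
  have h7 := Finset.card_le_card h6
  rw [Finset.card_pair (by intro h; exact hab (congrArg Prod.fst h))] at h7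
  exact h7

/-- **Main theorem.**  For every `α > 0` there exist `δ > 0` and `n₀` such that every red/blue
coloured 3-graph on an even number `n ≥ n₀` of vertices with minimum vertex degree at least
`(7/16 + α) * (n choose 2)` contains a loose Hamilton cycle having at least `(1/4 + δ) n` edges of
one colour. -/
theorem result :
    ∀ α : ℝ, 0 < α → ∃ δ : ℝ, 0 < δ ∧ ∃ n₀ : ℕ, ∀ n : ℕ, n₀ ≤ n → Even n →
      ∀ E : Finset (Finset (Fin n)), (∀ e ∈ E, e.card = 3) →
        (∀ x : Fin n, (7 / 16 + α) * (n.choose 2 : ℝ) ≤ ((E.filter (fun e => x ∈ e)).card : ℝ)) →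
        ∀ χ : Finset (Fin n) → Bool,
          ∃ v : ZMod n → Fin n, IsLooseHamiltonCycle E v ∧
            ∃ c : Bool, (1 / 4 + δ) * (n : ℝ) ≤
              (((looseEdges v).filter (fun e => χ e = c)).card : ℝ) := by
  classical
  intro α hα
  set α' : ℝ := min α 1 / 2 with hα'
  have hmpos : 0 < min α 1 := lt_min hα one_pos
  have hm1 : min α 1 ≤ 1 := min_le_right _ _
  have hmα : min α 1 ≤ α := min_le_left _ _
  have hα'pos : 0 < α' := by positivity
  obtain ⟨δ, hδ, n₀, hmain⟩ := main_graph α' hα'pos (by rw [hα']; linarith)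
  obtain ⟨n₁, hn₁⟩ := exists_nat_gt (3 / min α 1)
  refine ⟨δ, hδ, max n₀ (max n₁ 4), ?_⟩
  intro n hn heven E hE hdeg χ
  have hn0 : n₀ ≤ n := (le_max_left _ _).trans hn
  have hn1 : n₁ ≤ n := (le_max_left _ _).trans ((le_max_right _ _).trans hn)
  have hn4 : 4 ≤ n := (le_max_right _ _).trans ((le_max_right _ _).trans hn)
  have hn1r : 3 / min α 1 < (n : ℝ) := lt_of_lt_of_le hn₁ (by exact_mod_cast hn1)
  rw [div_lt_iff₀ hmpos] at hn1r
  have hnr : (4 : ℝ) ≤ n := by exact_mod_cast hn4
  -- the coloured relation
  set C : Bool → Fin n → Fin n → Fin n → Prop := fun c a b d =>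
    ({a, b, d} : Finset (Fin n)) ∈ E ∧ χ {a, b, d} = c with hC
  have hsym1 : ∀ c a b d, C c a b d → C c b a d := by
    intro c a b d h
    have e : ({b, a, d} : Finset (Fin n)) = {a, b, d} := Finset.insert_comm b a {d}
    simp only [hC, e]
    exact h
  have hsym2 : ∀ c a b d, C c a b d → C c a d b := by
    intro c a b d h
    have e : ({a, d, b} : Finset (Fin n)) = {a, b, d} := by rw [Finset.pair_comm d b]
    simp only [hC, e]
    exact h
  have hlink : ∀ x, (7 / 16 + α') * (Fintype.card (Fin n) : ℝ) ^ 2 ≤
      ((link (fun a b d => ∃ c, C c a b d) x).card : ℝ) := by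
    intro x
    have h1 := link_ge E hE x (fun a b d => ∃ c, C c a b d)
      (fun a b c h => ⟨χ {a, b, c}, h, rfl⟩)
    have h2 : 2 * ((E.filter (fun e => x ∈ e)).card : ℝ) ≤
        ((link (fun a b d => ∃ c, C c a b d) x).card : ℝ) := by exact_mod_cast h1
    refine le_trans ?_ h2
    have h3 := hdeg x
    rw [Fintype.card_fin]
    have h4 : (n.choose 2 : ℝ) = n * (n - 1) / 2 := Nat.cast_choose_two ℝ n
    rw [h4] at h3
    have h5 : (7 / 16 + α') * (n : ℝ) ^ 2 ≤ (7 / 16 + min α 1) * (n * (n - 1)) := by
      have : 0 ≤ (n : ℝ) := by positivity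
      rw [hα']
      nlinarith
    have h6 : (7 / 16 + min α 1) * ((n : ℝ) * (n - 1)) ≤ (7 / 16 + α) * (n * (n - 1)) := by
      apply mul_le_mul_of_nonneg_right (by linarith)
      nlinarith
    linarith
  obtain ⟨u, L, c, hpath, hnd, hall, hcnt⟩ := hmain (V := Fin n) C hsym1 hsym2
    (by rw [Fintype.card_fin]; exact hn0) (by rw [Fintype.card_fin]; exact heven) hlink
  rw [Fintype.card_fin] at hcnt
  have hLlen : L.length = n := by
    have h1 : L.toFinset = Finset.univ := by
      ext v; simp [hall v]
    have h2 := List.toFinset_card_of_nodup hnd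
    rw [h1, Finset.card_univ, Fintype.card_fin] at h2
    exact h2.symm
  have : NeZero n := ⟨by omega⟩
  set v : ZMod n → Fin n := fun z => L.getD z.val u with hv
  have hval : ∀ z : ZMod n, z.val < L.length := fun z => by rw [hLlen]; exact ZMod.val_lt z
  have hvinj : Function.Injective v := by
    intro z w hzw
    simp only [hv] at hzw
    rw [List.getD_eq_getElem _ _ (hval z), List.getD_eq_getElem _ _ (hval w)] at hzw
    exact ZMod.val_injective n (hnd.getElem_inj_iff.mp hzw)
  have hvbij : Function.Bijective v := by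
    rw [Fintype.bijective_iff_injective_and_card]
    refine ⟨hvinj, ?_⟩
    rw [ZMod.card, Fintype.card_fin]
  -- index function
  set f : ℕ → Fin n := fun j => (u :: L).getD j u with hf
  have hfsucc : ∀ j, f (j + 1) = L.getD j u := fun j => by simp only [hf, List.getD_cons_succ]
  have hflast : f n = u := by
    have := last_index hpath u
    rw [hLlen] at this
    exact this
  have hf0 : f 0 = u := rfl
  have hvnat : ∀ j : ℕ, j < n → v (j : ZMod n) = f (j + 1) := by
    intro j hj
    rw [hfsucc]
    simp only [hv]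
    rw [ZMod.val_cast_of_lt hj]
  -- the j-th edge
  have hedge : ∀ j, 2 * j + 2 ≤ n →
      ∃ i ∈ (Finset.range n).filter (fun i => Odd i),
        ({v (i : ZMod n), v ((i : ZMod n) + 1), v ((i : ZMod n) + 2)} : Finset (Fin n)) =
          {f (2 * j), f (2 * j + 1), f (2 * j + 2)} := by
    intro j hj
    cases j with
    | zero =>
      refine ⟨n - 1, ?_, ?_⟩
      · rw [Finset.mem_filter, Finset.mem_range]
        refine ⟨by omega, ?_⟩
        exact Nat.Even.sub_odd (by omega) heven odd_one
      · have e1 : v ((n - 1 : ℕ) : ZMod n) = f 0 := by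
          rw [hvnat (n - 1) (by omega), hf0, ← hflast]
          congr 1; omega
        have e2 : ((n - 1 : ℕ) : ZMod n) + 1 = ((0 : ℕ) : ZMod n) := by
          have : ((n - 1 : ℕ) : ZMod n) + 1 = ((n - 1 + 1 : ℕ) : ZMod n) := by push_cast; rfl
          rw [this, Nat.sub_add_cancel (by omega)]
          simp
        have e3 : ((n - 1 : ℕ) : ZMod n) + 2 = ((1 : ℕ) : ZMod n) := by
          have : ((n - 1 : ℕ) : ZMod n) + 2 = (((n - 1 : ℕ) : ZMod n) + 1) + 1 := by ring
          rw [this, e2]; simp
        rw [e1, e2, e3, hvnat 0 (by omega), hvnat 1 (by omega)]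
    | succ j =>
      refine ⟨2 * j + 1, ?_, ?_⟩
      · rw [Finset.mem_filter, Finset.mem_range]
        exact ⟨by omega, ⟨j, rfl⟩⟩
      · have e2 : ((2 * j + 1 : ℕ) : ZMod n) + 1 = ((2 * j + 2 : ℕ) : ZMod n) := by
          push_cast; ring
        have e3 : ((2 * j + 1 : ℕ) : ZMod n) + 2 = ((2 * j + 3 : ℕ) : ZMod n) := by
          push_cast; ring
        rw [e2, e3, hvnat _ (by omega), hvnat _ (by omega), hvnat _ (by omega)]
        rfl
  -- every odd i comes from some j
  have hodd : ∀ i ∈ (Finset.range n).filter (fun i => Odd i),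
      ({v (i : ZMod n), v ((i : ZMod n) + 1), v ((i : ZMod n) + 2)} : Finset (Fin n)) ∈ E := by
    intro i hi
    rw [Finset.mem_filter, Finset.mem_range] at hi
    obtain ⟨hi1, k, hk⟩ := hi
    obtain ⟨m, hm⟩ := heven
    have hE' : ∀ j, 2 * j + 2 ≤ n → ({f (2 * j), f (2 * j + 1), f (2 * j + 2)} :
        Finset (Fin n)) ∈ E := by
      intro j hj
      obtain ⟨c', hc', _⟩ := edge_index hpath u j (by rw [hLlen]; exact hj)
      exact hc'
    by_cases hlast : i = n - 1
    · subst hlast
      have e1 : v ((n - 1 : ℕ) : ZMod n) = f 0 := by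
        rw [hvnat (n - 1) (by omega), hf0, ← hflast]
        congr 1; omega
      have e2 : ((n - 1 : ℕ) : ZMod n) + 1 = ((0 : ℕ) : ZMod n) := by
        have : ((n - 1 : ℕ) : ZMod n) + 1 = ((n - 1 + 1 : ℕ) : ZMod n) := by push_cast; rfl
        rw [this, Nat.sub_add_cancel (by omega)]
        simp
      have e3 : ((n - 1 : ℕ) : ZMod n) + 2 = ((1 : ℕ) : ZMod n) := by
        have : ((n - 1 : ℕ) : ZMod n) + 2 = (((n - 1 : ℕ) : ZMod n) + 1) + 1 := by ring
        rw [this, e2]; simp
      rw [e1, e2, e3, hvnat 0 (by omega), hvnat 1 (by omega)]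
      exact hE' 0 (by omega)
    · subst hk
      have e2 : ((2 * k + 1 : ℕ) : ZMod n) + 1 = ((2 * k + 2 : ℕ) : ZMod n) := by
        push_cast; ring
      have e3 : ((2 * k + 1 : ℕ) : ZMod n) + 2 = ((2 * k + 3 : ℕ) : ZMod n) := by
        push_cast; ring
      rw [e2, e3, hvnat _ (by omega), hvnat _ (by omega), hvnat _ (by omega)]
      exact hE' (k + 1) (by omega)
  refine ⟨v, ⟨hvbij, ?_⟩, c, ?_⟩
  · intro e he
    unfold looseEdges at he
    rw [Finset.mem_image] at he
    obtain ⟨i, hi, rfl⟩ := he
    exact hodd i hi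
  · refine hcnt.trans ?_
    have h1 : cnt (C c) u L =
        ((Finset.range (n / 2)).filter (fun j => C c (f (2 * j)) (f (2 * j + 1))
          (f (2 * j + 2)))).card := by
      rw [cnt_index (C c) hpath u, hLlen, Finset.card_filter]
      apply Finset.sum_congr rfl
      intro j _
      simp only [hf]
      congr
    rw [h1]
    apply Nat.cast_le.mpr
    apply Finset.card_le_card_of_injOn (fun j => {f (2 * j), f (2 * j + 1), f (2 * j + 2)})
    · intro j hj
      rw [Finset.mem_coe, Finset.mem_filter, Finset.mem_range] at hj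
      rw [Finset.mem_coe, Finset.mem_filter]
      refine ⟨?_, hj.2.2⟩
      unfold looseEdges
      rw [Finset.mem_image]
      exact hedge j (by omega)
    · intro j hj k hk hjk
      rw [Finset.mem_coe, Finset.mem_filter, Finset.mem_range] at hj hk
      simp only at hjk
      -- the private vertex determines the edge
      have hfinj : ∀ p q, 1 ≤ p → p ≤ n → 1 ≤ q → q ≤ n → f p = f q → p = q := by
        intro p q hp1 hp2 hq1 hq2 hpq
        obtain ⟨p', rfl⟩ : ∃ p', p = p' + 1 := ⟨p - 1, by omega⟩
        obtain ⟨q', rfl⟩ : ∃ q', q = q' + 1 := ⟨q - 1, by omega⟩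
        rw [hfsucc, hfsucc, List.getD_eq_getElem _ _ (by omega),
          List.getD_eq_getElem _ _ (by omega)] at hpq
        have := hnd.getElem_inj_iff.mp hpq
        omega
      have hmem : f (2 * j + 1) ∈ ({f (2 * k), f (2 * k + 1), f (2 * k + 2)} :
          Finset (Fin n)) := by
        rw [← hjk]; simp
      rw [Finset.mem_insert, Finset.mem_insert, Finset.mem_singleton] at hmem
      rcases hmem with h | h | h
      · exfalso
        rcases Nat.eq_zero_or_pos k with hk0 | hk0
        · subst hk0
          have h' : f (2 * j + 1) = f n := by rw [h, hflast]; rfl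
          have := hfinj _ _ (by omega) (by omega) (by omega) le_rfl h'
          obtain ⟨m, hm⟩ := heven
          omega
        · have := hfinj _ _ (by omega) (by omega) (by omega) (by omega) h
          omega
      · have := hfinj _ _ (by omega) (by omega) (by omega) (by omega) h
        omega
      · exfalso
        have := hfinj _ _ (by omega) (by omega) (by omega) (by omega) h
        omega

end Pool.Agent.Results.MP_8a4838_co.ColourBiasedLooseCycle
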